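import Pool.Agent.H354.BG.Stm

set_option autoImplicit false

/-! Project BG (helper354), task DIC: dictionary between words and the system. -/

namespace Pool.Agent.H187.BG.DIC

open Pool.Agent.H354.BG
open Pool.Agent.H482R3.EA (W inv ev PP xx evF cond1 cond2 Syl gOf Sys St Near InD Adm Act)
open Pool.Agent.H482R3.EB (tot wp alt rels AR gR TR Tame Symm alt_length)

section

variable (D : Dat) (U : Finset (Fin D.r)) (b : Fin D.r)

theorem sameP_iff (g' g : W (Fin D.n)) : sameP D U b g' g ↔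
    (QuotientGroup.mk (gEl D g') : D.A ⧸ H0 D U b) = QuotientGroup.mk (gEl D g) :=
  QuotientGroup.eq.symm

theorem sameL_iff (w : Fin D.n) (g' g : W (Fin D.n)) : sameL D U b w g' g ↔
    (QuotientGroup.mk (gEl D g') : D.A ⧸ Hw D U b w) = QuotientGroup.mk (gEl D g) :=
  QuotientGroup.eq.symm

theorem pZ_par {w : Fin D.n} {u : D.A} (hu : u ∈ par D (pZ D (pZ D U b) (D.β w))) :
    u ∈ par D (pZ D U b) := par_mono D (pZ_sub D (pZ D U b) (D.β w)) hu

theorem rhoU_Z {h : D.A} (hh : h ∈ par D (pZ D U b)) : rho D U h = h :=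
  rho_of_par D (par_mono D (pZ_sub D U b) hh)

theorem mem_H0_of {h : D.A} (hh : h ∈ par D (pZ D U b)) : h ∈ H0 D U b := by
  rw [mem_H0, rhoU_Z D U b hh]
  exact hh

theorem zpow_Hw {w : Fin D.n} {x : D.A} {i : ℤ} (h : rho D U x = gR D.m w ^ i) :
    x ∈ Hw D U b w :=
  (mem_Hw D U b).2 ⟨i, 1, Subgroup.one_mem _, by rw [h, mul_one]⟩

/-- the point of `g` is on the line of `g'` -/
theorem onL_iff (w : Fin D.n) (g' g : W (Fin D.n)) : onL D U b w g' g ↔
    ∃ x : D.A, (QuotientGroup.mk (gEl D g) : D.A ⧸ H0 D U b) = QuotientGroup.mk x ∧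
      (QuotientGroup.mk (gEl D g') : D.A ⧸ Hw D U b w) = QuotientGroup.mk x := by
  constructor
  · rintro ⟨i, h, hh, he⟩
    refine ⟨gEl D g * h⁻¹, ?_, ?_⟩
    · rw [QuotientGroup.eq, inv_mul_cancel_left]
      exact Subgroup.inv_mem _ (mem_H0_of D U b hh)
    · rw [QuotientGroup.eq, ← mul_assoc]
      apply zpow_Hw D U b (i := i)
      rw [map_mul, he, map_inv, rhoU_Z D U b hh, mul_inv_cancel_right]
  · rintro ⟨x, h1, h2⟩
    rw [QuotientGroup.eq] at h1 h2
    obtain ⟨i, u, hu, he⟩ := (mem_Hw D U b).1 h2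
    refine ⟨i, u * (rho D U ((gEl D g)⁻¹ * x))⁻¹,
      Subgroup.mul_mem _ (pZ_par D U b hu) (Subgroup.inv_mem _ ((mem_H0 D U b).1 h1)), ?_⟩
    have h3 : (gEl D g')⁻¹ * gEl D g = ((gEl D g')⁻¹ * x) * ((gEl D g)⁻¹ * x)⁻¹ := by group
    rw [h3, map_mul, he, map_inv, mul_assoc]

/-- the points of `g'` and `g` are on a common line -/
theorem dcs_iff (w : Fin D.n) (g' g : W (Fin D.n)) : dcs D U b w g' g ↔
    ∃ q : D.A ⧸ Hw D U b w,
      (∃ x : D.A, (QuotientGroup.mk (gEl D g') : D.A ⧸ H0 D U b) = QuotientGroup.mk x ∧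
        q = QuotientGroup.mk x) ∧
      (∃ x : D.A, (QuotientGroup.mk (gEl D g) : D.A ⧸ H0 D U b) = QuotientGroup.mk x ∧
        q = QuotientGroup.mk x) := by
  constructor
  · rintro ⟨i, h₁, h₂, hh₁, hh₂, he⟩
    refine ⟨QuotientGroup.mk (gEl D g' * h₁), ⟨gEl D g' * h₁, ?_, rfl⟩,
      ⟨gEl D g * h₂⁻¹, ?_, ?_⟩⟩
    · rw [QuotientGroup.eq, inv_mul_cancel_left]
      exact mem_H0_of D U b hh₁
    · rw [QuotientGroup.eq, inv_mul_cancel_left]
      exact Subgroup.inv_mem _ (mem_H0_of D U b hh₂)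
    · rw [QuotientGroup.eq]
      apply zpow_Hw D U b (i := i)
      have h3 : (gEl D g' * h₁)⁻¹ * (gEl D g * h₂⁻¹) = h₁⁻¹ * ((gEl D g')⁻¹ * gEl D g) * h₂⁻¹ := by
        group
      rw [h3, map_mul, map_mul, he, map_inv, map_inv, rhoU_Z D U b hh₁, rhoU_Z D U b hh₂]
      group
  · rintro ⟨q, ⟨x, h1, h2⟩, ⟨y, h3, h4⟩⟩
    rw [h2] at h4
    rw [QuotientGroup.eq] at h1 h3 h4
    obtain ⟨i, u, hu, he⟩ := (mem_Hw D U b).1 h4
    refine ⟨i, rho D U ((gEl D g')⁻¹ * x), u * (rho D U ((gEl D g)⁻¹ * y))⁻¹,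
      (mem_H0 D U b).1 h1,
      Subgroup.mul_mem _ (pZ_par D U b hu) (Subgroup.inv_mem _ ((mem_H0 D U b).1 h3)), ?_⟩
    have h5 : (gEl D g')⁻¹ * gEl D g =
        ((gEl D g')⁻¹ * x) * (x⁻¹ * y) * ((gEl D g)⁻¹ * y)⁻¹ := by group
    rw [h5, map_mul, map_mul, he, map_inv]
    group

end

theorem t_DICX : S_DICX := by
  intro D U b _ h s g hok
  rcases s with _ | ⟨g', v', e, n⟩ | ⟨g', y⟩ | ⟨g', v', w', y⟩
  · exact ⟨fun _ _ => Iff.rfl, Iff.rfl, fun _ _ _ => Iff.rfl⟩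
  · have hv' : D.β v' = b := hok
    have hst : stO D U b h (some (.inl (g', v', e, n))) =
        .pt ((QuotientGroup.mk (gEl D g'), ⟨v', hv'⟩) : Pt D U b) := by
      show (if hv : D.β v' = b then _ else _) = _
      rw [dif_pos hv']
    rw [hst]
    refine ⟨?_, ?_, ?_⟩
    · intro v hv
      show (sameP D U b g' g ∨ (v = v' ∧ ∃ w, okL D U b v w ∧ dcs D U b w g' g)) ↔
        ∃ m : Ln D U b, Ix D U b (QuotientGroup.mk (gEl D g'), ⟨v', hv'⟩) m ∧
          Ix D U b (QuotientGroup.mk (gEl D g), ⟨v, hv⟩) m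
      constructor
      · rintro (h1 | ⟨rfl, w, hc, h1⟩)
        · exact ⟨Sum.inl (QuotientGroup.mk (gEl D g)), (sameP_iff D U b g' g).1 h1, rfl⟩
        · obtain ⟨q, h2, h3⟩ := (dcs_iff D U b w g' g).1 h1
          exact ⟨Sum.inr ⟨(⟨(v, w), hc⟩ : LI D U b), q⟩, ⟨rfl, h2⟩, ⟨rfl, h3⟩⟩
      · rintro ⟨m | ⟨⟨⟨v1, w1⟩, hc⟩, x⟩, h1, h2⟩
        · left
          exact (sameP_iff D U b g' g).2
            ((show (QuotientGroup.mk (gEl D g') : D.A ⧸ H0 D U b) = m from h1).trans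
              (show (QuotientGroup.mk (gEl D g) : D.A ⧸ H0 D U b) = m from h2).symm)
        · right
          obtain ⟨h1a, h1b⟩ := h1
          obtain ⟨h2a, h2b⟩ := h2
          have e1 : v' = v1 := h1a
          have e2 : v = v1 := h2a
          subst e1
          subst e2
          exact ⟨rfl, w1, hc, (dcs_iff D U b w1 g' g).2 ⟨x, h1b, h2b⟩⟩
    · show sameP D U b g' g ↔ (QuotientGroup.mk (gEl D g') : D.A ⧸ H0 D U b) =
        QuotientGroup.mk (gEl D g)
      exact sameP_iff D U b g' g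
    · intro v w hc
      show (v = v' ∧ onL D U b w g g') ↔ (v' = v ∧ ∃ x : D.A,
        (QuotientGroup.mk (gEl D g') : D.A ⧸ H0 D U b) = QuotientGroup.mk x ∧
        (QuotientGroup.mk (gEl D g) : D.A ⧸ Hw D U b w) = QuotientGroup.mk x)
      rw [onL_iff]
      constructor
      · rintro ⟨h1, h2⟩; exact ⟨h1.symm, h2⟩
      · rintro ⟨h1, h2⟩; exact ⟨h1.symm, h2⟩
  · refine ⟨?_, ?_, ?_⟩
    · intro v hv
      show sameP D U b g' g ↔ (QuotientGroup.mk (gEl D g) : D.A ⧸ H0 D U b) =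
        QuotientGroup.mk (gEl D g')
      rw [sameP_iff]
      exact eq_comm
    · show sameP D U b g' g ↔ (Sum.inl (QuotientGroup.mk (gEl D g)) : Ln D U b) =
        Sum.inl (QuotientGroup.mk (gEl D g'))
      rw [sameP_iff]
      constructor
      · intro h1; rw [h1]
      · intro h1; exact (Sum.inl_injective h1).symm
    · intro v w hc
      show False ↔ (Sum.inr ⟨(⟨(v, w), hc⟩ : LI D U b), QuotientGroup.mk (gEl D g)⟩ : Ln D U b) =
        Sum.inl (QuotientGroup.mk (gEl D g'))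
      constructor
      · exact False.elim
      · intro h1; cases h1
  · have hc' : okL D U b v' w' := hok
    have hst : stO D U b h (some (.inr (.inr (g', v', w', y)))) =
        .ln (Sum.inr ⟨(⟨(v', w'), hc'⟩ : LI D U b), QuotientGroup.mk (gEl D g')⟩ : Ln D U b) := by
      show (if hc : okL D U b v' w' then _ else _) = _
      rw [dif_pos hc']
    rw [hst]
    refine ⟨?_, ?_, ?_⟩
    · intro v hv
      show (v = v' ∧ onL D U b w' g' g) ↔ (v = v' ∧ ∃ x : D.A,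
        (QuotientGroup.mk (gEl D g) : D.A ⧸ H0 D U b) = QuotientGroup.mk x ∧
        (QuotientGroup.mk (gEl D g') : D.A ⧸ Hw D U b w') = QuotientGroup.mk x)
      rw [onL_iff]
    · show False ↔ (Sum.inl (QuotientGroup.mk (gEl D g)) : Ln D U b) =
        Sum.inr ⟨(⟨(v', w'), hc'⟩ : LI D U b), QuotientGroup.mk (gEl D g')⟩
      constructor
      · exact False.elim
      · intro h1; cases h1
    · intro v w hc
      show (v = v' ∧ w = w' ∧ sameL D U b w g' g) ↔
        (Sum.inr ⟨(⟨(v, w), hc⟩ : LI D U b), QuotientGroup.mk (gEl D g)⟩ : Ln D U b) =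
        Sum.inr ⟨(⟨(v', w'), hc'⟩ : LI D U b), QuotientGroup.mk (gEl D g')⟩
      rw [sameL_iff]
      constructor
      · rintro ⟨rfl, rfl, h2⟩
        rw [h2]
      · intro h1
        have h2 := Sum.inr_injective h1
        obtain ⟨h3, h4⟩ := Sigma.mk.inj h2
        have h5 := congrArg Subtype.val h3
        have h6 : v = v' := congrArg Prod.fst h5
        have h7 : w = w' := congrArg Prod.snd h5
        subst h6
        subst h7
        exact ⟨rfl, rfl, (eq_of_heq h4).symm⟩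

end Pool.Agent.H187.BG.DIC
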