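import Pool.Agent.H380.BG.Stm

/-!
# Project BG (helper380): properties of the integrated theta function (task TH)
-/

set_option autoImplicit false

namespace Pool.Agent.H187.BG

open Complex MeasureTheory Filter Topology Set MatrixGroups CongruenceSubgroup
open UpperHalfPlane hiding I
open Pool.Agent.H380.BG
open scoped ENNReal Real

namespace ThS

/-- Joint measurability of the theta function. -/
theorem meas_th1 : Measurable (fun p : ℝ × ℍ => th1 p.1 p.2) := by
  unfold th1
  refine Measurable.ennreal_tsum fun p => ?_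
  refine ENNReal.measurable_ofReal.comp ?_
  refine Continuous.measurable ?_
  have h1 : Continuous (fun q : ℝ × ℍ => (q.2 : ℂ)) :=
    UpperHalfPlane.continuous_coe.comp continuous_snd
  have h2 : Continuous (fun q : ℝ × ℍ => q.2.im) :=
    UpperHalfPlane.continuous_im.comp continuous_snd
  have h3 : ∀ q : ℝ × ℍ, q.2.im ≠ 0 := fun q => q.2.im_pos.ne'
  refine Real.continuous_exp.comp (Continuous.neg ?_)
  refine (continuous_const.mul continuous_fst).mul ?_
  refine Continuous.div ?_ h2 h3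
  exact ((continuous_const.mul h1).add continuous_const).norm.pow 2

theorem meas_th1' (t : ℝ) : Measurable (fun z : ℍ => th1 t z) :=
  meas_th1.comp (measurable_const.prodMk measurable_id)

/-- The theta function is decreasing. -/
theorem th1_anti (z : ℍ) {s t : ℝ} (hst : s ≤ t) : th1 t z ≤ th1 s z := by
  unfold th1
  refine ENNReal.tsum_le_tsum fun p => ENNReal.ofReal_le_ofReal (Real.exp_le_exp.2 ?_)
  have h1 : 0 ≤ ‖(p.1.1 : ℂ) * (z : ℂ) + (p.1.2 : ℂ)‖ ^ 2 / z.im :=
    div_nonneg (sq_nonneg _) z.im_pos.le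
  have h2 : π * s * (‖(p.1.1 : ℂ) * (z : ℂ) + (p.1.2 : ℂ)‖ ^ 2 / z.im) ≤
      π * t * (‖(p.1.1 : ℂ) * (z : ℂ) + (p.1.2 : ℂ)‖ ^ 2 / z.im) :=
    mul_le_mul_of_nonneg_right (mul_le_mul_of_nonneg_left hst Real.pi_pos.le) h1
  linarith

theorem Th_anti {s t : ℝ} (hst : s ≤ t) : Th t ≤ Th s := by
  unfold Th
  exact lintegral_mono fun z => th1_anti z hst

/-- The zeta factor is finite. -/
theorem zs_ne (s : ℝ) (hs : 1 < s) : zs s ≠ ⊤ := by
  unfold zs
  have h1 : Summable (fun N : ℕ => ((N : ℝ) + 1) ^ (-(2 * s))) := by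
    have h2 : Summable (fun N : ℕ => (N : ℝ) ^ (-(2 * s))) :=
      Real.summable_nat_rpow.2 (by linarith)
    have h3 := (summable_nat_add_iff 1).2 h2
    refine h3.congr fun N => ?_
    push_cast
    rfl
  rw [← ENNReal.ofReal_tsum_of_nonneg (fun N => by positivity) h1]
  exact ENNReal.ofReal_ne_top

/-- The integral of a power on `(0, t]`. -/
theorem pow_int (t r : ℝ) (ht : 0 < t) (hr : 1 < r) :
    ∫⁻ u in Ioc (0 : ℝ) t, ENNReal.ofReal (u ^ (r - 1)) = ENNReal.ofReal (t ^ r / r) := by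
  have h0 : IntervalIntegrable (fun u : ℝ => u ^ (r - 1)) volume 0 t :=
    intervalIntegral.intervalIntegrable_rpow' (by linarith)
  have h1 : IntegrableOn (fun u : ℝ => u ^ (r - 1)) (Ioc 0 t) :=
    (intervalIntegrable_iff_integrableOn_Ioc_of_le ht.le).1 h0
  rw [← ofReal_integral_eq_lintegral_ofReal h1 ((ae_restrict_iff' measurableSet_Ioc).2
    (Eventually.of_forall fun u hu => Real.rpow_nonneg hu.1.le _)),
    ← intervalIntegral.integral_of_le ht.le, integral_rpow (Or.inl (by linarith))]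
  have h2 : r - 1 + 1 = r := by ring
  rw [h2, Real.zero_rpow (by linarith), sub_zero]

end ThS

open ThS in
/-- **TH.** -/
theorem t_TH (h1 : S_POI) (h2 : S_EPS) (h3 : S_INT) : S_TH := by
  obtain ⟨hn0, hn1, hrs, hE⟩ := h3
  have : IsFiniteMeasure nu := ⟨lt_top_iff_ne_top.2 hn1⟩
  -- (5)
  have p5 : ∀ s : ℝ, 1 < s → ∫⁻ t in Ioi (0 : ℝ), ENNReal.ofReal (t ^ (s - 1)) * Th t =
      ENNReal.ofReal (ar s) * (zs s * rs s) := by
    intro s hs
    have e1 : ∀ t : ℝ, ENNReal.ofReal (t ^ (s - 1)) * Th t =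
        ∫⁻ z, ENNReal.ofReal (t ^ (s - 1)) * th1 t z ∂nu := by
      intro t
      unfold Th
      rw [lintegral_const_mul' _ _ ENNReal.ofReal_ne_top]
    have hm : Measurable (fun p : ℝ × ℍ => ENNReal.ofReal (p.1 ^ (s - 1)) * th1 p.1 p.2) := by
      refine Measurable.mul ?_ meas_th1
      exact ENNReal.measurable_ofReal.comp (measurable_fst.pow_const _)
    rw [lintegral_congr e1, lintegral_lintegral_swap hm.aemeasurable]
    have e2 : ∀ z : ℍ, ∫⁻ t in Ioi (0 : ℝ), ENNReal.ofReal (t ^ (s - 1)) * th1 t z =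
        ENNReal.ofReal (Real.Gamma s / π ^ s) * zs s * W388.EisG 1 s z := fun z => h2 z s hs
    rw [lintegral_congr e2, lintegral_const_mul' _ _
      (ENNReal.mul_ne_top ENNReal.ofReal_ne_top (zs_ne s hs)), hE s hs]
    have hG : 0 ≤ Real.Gamma s / π ^ s :=
      div_nonneg (Real.Gamma_pos_of_pos (by linarith)).le (Real.rpow_nonneg Real.pi_pos.le _)
    unfold ar
    rw [ENNReal.ofReal_mul hG]
    ring
  -- the bound
  have hb : ∀ r : ℝ, 1 < r → ∃ M : ℝ, 0 ≤ M ∧ ∀ t : ℝ, 0 < t →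
      Th t * ENNReal.ofReal (t ^ r / r) ≤ ENNReal.ofReal M := by
    intro r hr
    refine ⟨(ENNReal.ofReal (ar r) * (zs r * rs r)).toReal, ENNReal.toReal_nonneg, ?_⟩
    intro t ht
    rw [ENNReal.ofReal_toReal (ENNReal.mul_ne_top ENNReal.ofReal_ne_top
      (ENNReal.mul_ne_top (zs_ne r hr) (hrs r hr))), ← p5 r hr, ← pow_int t r ht hr, mul_comm]
    rw [← lintegral_mul_const _ (by fun_prop)]
    refine le_trans ?_ (lintegral_mono_set (Ioc_subset_Ioi_self : Ioc (0 : ℝ) t ⊆ Ioi 0))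
    refine setLIntegral_mono' measurableSet_Ioc fun u hu => ?_
    exact mul_le_mul_right (Th_anti hu.2) _
  refine ⟨?_, ?_, ?_, ?_, p5⟩
  · intro t ht htop
    obtain ⟨M, hM, hMt⟩ := hb 2 (by norm_num)
    have h4 := hMt t ht
    rw [htop, ENNReal.top_mul (by
      rw [Ne, ENNReal.ofReal_eq_zero, not_le]
      positivity)] at h4
    exact ENNReal.ofReal_ne_top (top_le_iff.1 h4)
  · intro r
    obtain ⟨q, hq⟩ : ∃ q : ℝ, q = max r 2 := ⟨_, rfl⟩
    have hq1 : r ≤ q := by rw [hq]; exact le_max_left _ _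
    have hq2 : 2 ≤ q := by rw [hq]; exact le_max_right _ _
    obtain ⟨M, hM, hMt⟩ := hb q (by linarith)
    refine ⟨q * M + 1, by positivity, fun t ht => ?_⟩
    have ht0 : 0 < t := by linarith
    have h4 := hMt t ht0
    have hpos : 0 < t ^ q / q := by positivity
    have h5 : Th t ≤ ENNReal.ofReal M / ENNReal.ofReal (t ^ q / q) := by
      rw [ENNReal.le_div_iff_mul_le (Or.inl (by
        rw [Ne, ENNReal.ofReal_eq_zero, not_le]
        exact hpos)) (Or.inl ENNReal.ofReal_ne_top)]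
      exact h4
    refine h5.trans ?_
    rw [← ENNReal.ofReal_div_of_pos hpos]
    refine ENNReal.ofReal_le_ofReal ?_
    have h6 : M / (t ^ q / q) = q * M * t ^ (-q) := by
      rw [Real.rpow_neg ht0.le]
      field_simp
    rw [h6]
    have h7 : t ^ (-q) ≤ t ^ (-r) := Real.rpow_le_rpow_of_exponent_le ht (by linarith)
    have h8 : 0 ≤ t ^ (-q) := Real.rpow_nonneg ht0.le _
    have h9 : 0 ≤ q * M := by positivity
    nlinarith [mul_le_mul_of_nonneg_left h7 h9]
  · intro t ht
    have h4 : ∫⁻ z, (1 + th1 (1 / t) z) ∂nu = ∫⁻ z, ENNReal.ofReal t * (1 + th1 t z) ∂nu :=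
      lintegral_congr fun z => (h1 z t ht).2
    rw [lintegral_add_left measurable_const, lintegral_const_mul' _ _ ENNReal.ofReal_ne_top,
      lintegral_add_left measurable_const, lintegral_const, one_mul] at h4
    exact h4
  · intro s t _ hst
    exact Th_anti hst

end Pool.Agent.H187.BG
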